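import Pool.Agent.Lib.MP_43065d_gt.Main

/-!
# MP_43065d_gt: the volume of the Blaschke body in dimension three

For a convex body `K` in `ℝ³` with Blaschke body `∇K`: `vol (∇K) ≤ √2 vol K`, with equality exactly for
simplices.

Proof.  (1) For every `z`, the support function of `M = K ∩ (2 z - K)` and Minkowski's inequality for mixed
volumes give `vol (∇K)² vol M ≤ vol K ^ 3`.  (2) Every convex body `K` has a `z` with
`2 vol (K ∩ (2 z - K)) ≥ vol K`, with equality for the best `z` only if `K` is a simplex: the ratio has a
minimiser, its faces satisfy first order conditions, and an inequality for planar convex sets gives the bound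
face by face; facets of approximating polytopes that do not come from a face of the minimiser are handled by a
one dimensional inequality.  (3) For a simplex the surface area measure of `∇K` has eight atoms and the volume
is computed.
-/

open MeasureTheory Set

namespace Pool.Agent.Results.MP_43065d_gt.BlaschkeThree

open Pool.Agent.Lib.MP_43065d_gt

/-- For every convex body `K` in `ℝ³` and its Blaschke body `N`: `vol N ≤ √2 vol K`, with equality if and only
if `K` is a simplex. -/
theorem result (K N : Set (EuclideanSpace ℝ (Fin 3))) (hK : IsBody K) (hB : IsBlaschke K N) :
    volume N ≤ ENNReal.ofReal (Real.sqrt 2) * volume K ∧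
      (volume N = ENNReal.ofReal (Real.sqrt 2) * volume K ↔
        ∃ p : Fin 4 → EuclideanSpace ℝ (Fin 3),
          AffineIndependent ℝ p ∧ K = convexHull ℝ (Set.range p)) :=
  main hK hB

end Pool.Agent.Results.MP_43065d_gt.BlaschkeThree
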